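import Pool.Agent.K1H70.KQ.Stm
import Pool.Agent.K1H65.KR.Inv

/-! Piece KQ-R2 (S_INVq): infinitesimal invariance and degree of the determinants of a quiver
(helper99 for helper70; generalises K1H39/KG/Inv by helper39 and K1H65/KR/Inv by helper65). -/

set_option autoImplicit false

namespace Pool.Agent.K1H99.KQ

open MvPolynomial Pool.Agent.K1H70.KR Pool.Agent.K1H70.KR.Inv
open Pool.Agent.K1H70.KQ

section

variable {I α ρ E : Type}

theorem wv_nil {R : Type} [CommRing R] [Fintype E] (x : U α ρ E → R) (l : ρ) (a : E) :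
    wv x [] l a = x (a, Sum.inr l) := rfl

theorem wv_cons {R : Type} [CommRing R] [Fintype E] (x : U α ρ E → R) (b : α) (w : List α) (l : ρ)
    (a : E) : wv x (b :: w) l a = ∑ c, x (a, Sum.inl (b, c)) * wv x w l c := rfl

variable [DecidableEq I] {Q : Qv I α ρ} {vt : E → I}

/-- the generic data -/
noncomputable abbrev Y : U α ρ E → MvPolynomial (VQ Q vt) ℂ :=
  ext (X : VQ Q vt → MvPolynomial (VQ Q vt) ℂ)

theorem Y_ok {u : U α ρ E} (h : ok Q vt u) : (Y u : MvPolynomial (VQ Q vt) ℂ) = X ⟨u, h⟩ :=
  dif_pos h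

theorem Y_nok {u : U α ρ E} (h : ¬ ok Q vt u) : (Y u : MvPolynomial (VQ Q vt) ℂ) = 0 := dif_neg h

section

variable [Fintype α] [Fintype ρ] [Fintype E]

open Classical in
theorem sum_Y (v : U α ρ E) : (∑ u : VQ Q vt, if u.1 = v then
    (X u : MvPolynomial (VQ Q vt) ℂ) else 0) = Y v := by
  by_cases h : ok Q vt v
  · rw [Y_ok h, Finset.sum_eq_single (⟨v, h⟩ : VQ Q vt)]
    · rw [if_pos rfl]
    · intro u _ hu
      rw [if_neg]
      intro h1
      exact hu (Subtype.ext h1)
    · intro h1
      exact absurd (Finset.mem_univ _) h1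
  · rw [Y_nok h]
    refine Finset.sum_eq_zero fun u _ => ?_
    rw [if_neg]
    rintro rfl
    exact h u.2

theorem linD_inr {p q : E} (hpq : vt p = vt q) (a : E) (l : ρ) :
    linD (Mpq p q) (Y (a, Sum.inr l) : MvPolynomial (VQ Q vt) ℂ) =
      open Classical in if a = p then Y (q, Sum.inr l) else 0 := by
  classical
  by_cases h : ok Q vt (a, Sum.inr l)
  · rw [Y_ok h, linD_X]
    have h1 : ∀ u : VQ Q vt, ((Mpq p q u ⟨(a, Sum.inr l), h⟩ : ℝ) : ℂ) •
        (X u : MvPolynomial (VQ Q vt) ℂ) =
        if a = p then (if u.1 = (q, Sum.inr l) then X u else 0) else 0 := by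
      rintro ⟨⟨k, t⟩, hu⟩
      unfold Pool.Agent.K1H70.KQ.Mpq
      dsimp only
      have h2 : ¬ (k = a ∧ ∃ b, t = Sum.inl (b, p) ∧ (Sum.inr l : (α × E) ⊕ ρ) =
          Sum.inl (b, q)) := by
        rintro ⟨_, _, _, h⟩
        exact absurd h (by simp)
      rw [if_neg h2]
      by_cases ha : a = p <;> by_cases hk : k = q <;> by_cases ht : t = Sum.inr l <;>
        simp [ha, hk, ht]
    rw [Finset.sum_congr rfl fun u _ => h1 u]
    by_cases ha : a = p
    · simp only [if_pos ha]
      exact sum_Y _
    · simp only [if_neg ha]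
      exact Finset.sum_const_zero
  · rw [Y_nok h, map_zero]
    by_cases ha : a = p
    · rw [if_pos ha, Y_nok]
      intro h1
      apply h
      subst ha
      exact hpq.trans h1
    · rw [if_neg ha]

theorem linD_inl {p q : E} (hpq : vt p = vt q) (a : E) (b : α) (c : E) :
    linD (Mpq p q) (Y (a, Sum.inl (b, c)) : MvPolynomial (VQ Q vt) ℂ) =
      open Classical in (if a = p then Y (q, Sum.inl (b, c)) else 0) -
        if c = q then Y (a, Sum.inl (b, p)) else 0 := by
  classical
  by_cases h : ok Q vt (a, Sum.inl (b, c))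
  · rw [Y_ok h, linD_X]
    have h1 : ∀ u : VQ Q vt, ((Mpq p q u ⟨(a, Sum.inl (b, c)), h⟩ : ℝ) : ℂ) •
        (X u : MvPolynomial (VQ Q vt) ℂ) =
        (if a = p then (if u.1 = (q, Sum.inl (b, c)) then X u else 0) else 0) -
          (if c = q then (if u.1 = (a, Sum.inl (b, p)) then X u else 0) else 0) := by
      rintro ⟨⟨k, t⟩, hu⟩
      have h2 : (k = a ∧ ∃ b', t = Sum.inl (b', p) ∧ (Sum.inl (b, c) : (α × E) ⊕ ρ) =
          Sum.inl (b', q)) ↔ ((k = a ∧ t = Sum.inl (b, p)) ∧ c = q) := by
        constructor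
        · rintro ⟨h, b', h3, h4⟩
          rw [Sum.inl.injEq, Prod.mk.injEq] at h4
          obtain ⟨rfl, rfl⟩ := h4
          exact ⟨⟨h, h3⟩, rfl⟩
        · rintro ⟨⟨h, h3⟩, rfl⟩
          exact ⟨h, b, h3, rfl⟩
      unfold Pool.Agent.K1H70.KQ.Mpq
      dsimp only
      simp only [h2]
      by_cases ha : a = p <;> by_cases hk : k = q <;> by_cases ht : t = Sum.inl (b, c) <;>
        by_cases hka : k = a <;> by_cases htp : t = Sum.inl (b, p) <;> by_cases hc : c = q <;>
        simp [ha, hk, ht, hka, htp, hc, sub_smul]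
    rw [Finset.sum_congr rfl fun u _ => h1 u, Finset.sum_sub_distrib]
    congr 1
    · by_cases ha : a = p
      · simp only [if_pos ha]
        exact sum_Y _
      · simp only [if_neg ha]
        exact Finset.sum_const_zero
    · by_cases hc : c = q
      · simp only [if_pos hc]
        exact sum_Y _
      · simp only [if_neg hc]
        exact Finset.sum_const_zero
  · rw [Y_nok h, map_zero]
    have e1 : (if a = p then (Y (q, Sum.inl (b, c)) : MvPolynomial (VQ Q vt) ℂ) else 0) = 0 := by
      by_cases ha : a = p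
      · rw [if_pos ha, Y_nok]
        intro h1
        apply h
        subst ha
        exact ⟨hpq.trans h1.1, h1.2⟩
      · rw [if_neg ha]
    have e2 : (if c = q then (Y (a, Sum.inl (b, p)) : MvPolynomial (VQ Q vt) ℂ) else 0) = 0 := by
      by_cases hc : c = q
      · rw [if_pos hc, Y_nok]
        intro h1
        apply h
        subst hc
        exact ⟨h1.1, hpq.symm.trans h1.2⟩
      · rw [if_neg hc]
    rw [e1, e2, sub_zero]

theorem linD_wv {p q : E} (hpq : vt p = vt q) (w : List α) (l : ρ) (a : E) :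
    linD (Mpq p q) (wv (Y : U α ρ E → MvPolynomial (VQ Q vt) ℂ) w l a) =
      open Classical in if a = p then wv (Y : U α ρ E → MvPolynomial (VQ Q vt) ℂ) w l q else 0 := by
  classical
  induction w generalizing a with
  | nil => rw [wv_nil, wv_nil, linD_inr hpq]
  | cons b w ih =>
    rw [wv_cons, wv_cons, map_sum]
    have h1 : ∀ c : E, linD (Mpq p q)
        ((Y (a, Sum.inl (b, c)) : MvPolynomial (VQ Q vt) ℂ) * wv Y w l c) =
        (if a = p then Y (q, Sum.inl (b, c)) * wv Y w l c else 0) -
          (if c = q then Y (a, Sum.inl (b, p)) * wv Y w l c else 0) +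
          if c = p then Y (a, Sum.inl (b, c)) * wv Y w l q else 0 := by
      intro c
      rw [Derivation.leibniz, ih, linD_inl hpq, smul_eq_mul, smul_eq_mul]
      split_ifs <;> ring
    rw [Finset.sum_congr rfl fun b _ => h1 b, Finset.sum_add_distrib, Finset.sum_sub_distrib,
      Finset.sum_ite_eq', Finset.sum_ite_eq', if_pos (Finset.mem_univ _),
      if_pos (Finset.mem_univ _), sub_add_cancel]
    by_cases ha : a = p
    · simp [ha]
    · simp [ha]

end

/-- the variables of the vector `v_j` -/
def vv (Q : Qv I α ρ) (vt : E → I) (j : ρ) (y : {y : E // vt y = Q.ν j}) : VQ Q vt :=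
  ⟨(y.1, Sum.inr j), y.2⟩

section

variable [Fintype E]

theorem eulD_Y (j : ρ) (u : U α ρ E) : eulD (vv Q vt j) (Y u : MvPolynomial (VQ Q vt) ℂ) =
    open Classical in if u.2 = Sum.inr j then Y u else 0 := by
  classical
  by_cases h : ok Q vt u
  · rw [Y_ok h]
    unfold eulD
    rw [dsum_apply]
    obtain ⟨c, t⟩ := u
    by_cases ht : t = Sum.inr j
    · subst ht
      rw [if_pos rfl, Finset.sum_eq_single (⟨c, h⟩ : {y : E // vt y = Q.ν j})]
      · rw [Derivation.smul_apply]
        have : vv Q vt j ⟨c, h⟩ = ⟨(c, Sum.inr j), h⟩ := rfl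
        rw [this, pderiv_X_self, smul_eq_mul, mul_one]
      · intro b _ hb
        rw [Derivation.smul_apply, pderiv_X_of_ne, smul_zero]
        intro h1
        apply hb
        have h2 := congrArg (fun z : VQ Q vt => z.1.1) h1
        exact Subtype.ext h2.symm
      · intro h1
        exact absurd (Finset.mem_univ _) h1
    · rw [if_neg ht]
      refine Finset.sum_eq_zero fun b _ => ?_
      rw [Derivation.smul_apply, pderiv_X_of_ne, smul_zero]
      intro h1
      apply ht
      exact congrArg (fun z : VQ Q vt => z.1.2) h1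
  · rw [Y_nok h, map_zero]
    simp

theorem eulD_wv (j : ρ) (w : List α) (l : ρ) (a : E) :
    eulD (vv Q vt j) (wv (Y : U α ρ E → MvPolynomial (VQ Q vt) ℂ) w l a) =
      open Classical in if l = j then wv (Y : U α ρ E → MvPolynomial (VQ Q vt) ℂ) w l a else 0 := by
  classical
  induction w generalizing a with
  | nil =>
    rw [wv_nil, eulD_Y]
    simp
  | cons b w ih =>
    rw [wv_cons, map_sum]
    have h1 : ∀ c : E, eulD (vv Q vt j)
        ((Y (a, Sum.inl (b, c)) : MvPolynomial (VQ Q vt) ℂ) * wv Y w l c) =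
        if l = j then Y (a, Sum.inl (b, c)) * wv Y w l c else 0 := by
      intro c
      rw [Derivation.leibniz, ih, eulD_Y, smul_eq_mul, smul_eq_mul]
      by_cases hl : l = j
      · simp [hl]
      · simp [hl]
    rw [Finset.sum_congr rfl fun b _ => h1 b]
    by_cases hl : l = j
    · simp [hl]
    · simp [hl]

end

/-- a derivation which multiplies the factors by constants -/
theorem der_prod_pow {A : Type} [CommRing A] [Algebra ℂ A] [Fintype I] (D : Derivation ℂ A A)
    (f : I → A) (N a : I → ℕ) (h : ∀ i, D (f i) = (N i : ℂ) • f i) :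
    D (∏ i, f i ^ a i) = ((∑ i, a i * N i : ℕ) : ℂ) • ∏ i, f i ^ a i := by
  have h1 : ∀ i, D (f i ^ a i) = ((a i * N i : ℕ) : ℂ) • f i ^ a i := by
    intro i
    rw [Derivation.leibniz_pow, h i]
    rcases Nat.eq_zero_or_pos (a i) with h0 | h0
    · simp [h0]
    · obtain ⟨k, hk⟩ : ∃ k, a i = k + 1 := ⟨a i - 1, by omega⟩
      rw [hk, Nat.add_sub_cancel, ← Nat.cast_smul_eq_nsmul ℂ, smul_eq_mul, pow_succ]
      push_cast
      simp only [Algebra.smul_def, map_mul, map_add, map_one, map_natCast]
      ring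
  rw [der_prod]
  have h2 : ∀ b : I, (∏ i, if i = b then D (f i ^ a i) else f i ^ a i) =
      ((a b * N b : ℕ) : ℂ) • ∏ i, f i ^ a i := by
    intro b
    rw [← Finset.mul_prod_erase _ _ (Finset.mem_univ b), if_pos rfl,
      ← Finset.mul_prod_erase Finset.univ (fun i => f i ^ a i) (Finset.mem_univ b), h1 b,
      smul_mul_assoc]
    congr 2
    refine Finset.prod_congr rfl fun i hi => ?_
    rw [if_neg (Finset.ne_of_mem_erase hi)]
  rw [Finset.sum_congr rfl fun b _ => h2 b, ← Finset.sum_smul]
  push_cast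
  rfl

end

theorem t_INVq : S_INVq := by
  classical
  intro I α ρ E _ _ _ _ _ _ Q vt ω d e he a
  refine ⟨?_, ?_⟩
  · intro p q hpq hv
    rw [lin_apply]
    unfold FQ
    have h := der_prod_pow (linD (Mpq p q))
      (fun i => dq Q vt ω d e i (X : VQ Q vt → MvPolynomial (VQ Q vt) ℂ)) (fun _ => 0) a ?_
    · rw [h]
      simp
    · intro i
      rw [Nat.cast_zero, zero_smul]
      unfold dq
      rw [der_det]
      refine Finset.sum_eq_zero fun b _ => ?_
      by_cases hb : b.1 = p
      · have hq : vt q = i := by rw [← hv, ← hb]; exact b.2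
        have hne : b ≠ ⟨q, hq⟩ := by
          intro h1
          apply hpq
          rw [← hb, h1]
        refine Matrix.det_zero_of_column_eq (i := b) (j := ⟨q, hq⟩) hne fun k => ?_
        rw [Matrix.updateCol_self, Matrix.updateCol_ne hne.symm, Matrix.of_apply, Matrix.of_apply]
        exact (linD_wv hv _ _ _).trans (if_pos hb)
      · refine Matrix.det_eq_zero_of_column_eq_zero b fun k => ?_
        rw [Matrix.updateCol_self, Matrix.of_apply]
        exact (linD_wv hv _ _ _).trans (if_neg hb)
  · intro j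
    have hv : (∑ y : {y : E // vt y = Q.ν j}, gen (Sum.inl ⟨(y.1, Sum.inr j), y.2⟩) *
        gen (Sum.inr ⟨(y.1, Sum.inr j), y.2⟩) : Module.End ℂ (MvPolynomial (VQ Q vt) ℂ))
        = ∑ y : {y : E // vt y = Q.ν j}, gen (Sum.inl (vv Q vt j y)) *
          gen (Sum.inr (vv Q vt j y)) := rfl
    rw [hv, eul_apply (vv Q vt j)]
    unfold FQ NQ
    refine der_prod_pow (eulD (vv Q vt j))
      (fun i => dq Q vt ω d e i (X : VQ Q vt → MvPolynomial (VQ Q vt) ℂ))
      (fun i => nwq Q ω (Q.ν j) i (d j)) a fun i => ?_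
    unfold dq
    rw [der_det_row]
    set M : Matrix {y : E // vt y = i} {y : E // vt y = i} (MvPolynomial (VQ Q vt) ℂ) :=
      Matrix.of fun a c : {y : E // vt y = i} =>
        wv (ext X) (e.symm a.1).1.1.1 (e.symm a.1).1.1.2 c.1 with hM
    have h1 : ∀ b : {y : E // vt y = i}, (M.updateRow b fun c =>
        eulD (vv Q vt j) (M b c)).det = if (e.symm b.1).1.1.2 = j then M.det else 0 := by
      intro b
      by_cases hb : (e.symm b.1).1.1.2 = j
      · rw [if_pos hb]
        congr 1
        conv_rhs => rw [← Matrix.updateRow_eq_self M b]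
        congr 1
        funext c
        rw [hM, Matrix.of_apply]
        exact (eulD_wv j _ _ _).trans (if_pos hb)
      · rw [if_neg hb]
        refine Matrix.det_eq_zero_of_row_eq_zero b fun c => ?_
        rw [Matrix.updateRow_self, hM, Matrix.of_apply]
        exact (eulD_wv j _ _ _).trans (if_neg hb)
    rw [Finset.sum_congr rfl fun b _ => h1 b, ← Finset.sum_filter, Finset.sum_const]
    have hcard : (Finset.univ.filter fun b : {y : E // vt y = i} => (e.symm b.1).1.1.2 = j).card =
        nwq Q ω (Q.ν j) i (d j) := by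
      unfold nwq
      rw [← Fintype.card_subtype, ← Nat.card_eq_fintype_card]
      refine Nat.card_congr ⟨fun b => ⟨(e.symm b.1.1).1.1.1, ?_⟩,
        fun w => ⟨⟨e ⟨((w.1, j), i), w.2⟩, ?_⟩, ?_⟩, ?_, ?_⟩
      · have h := (e.symm b.1.1).2
        have h2 : (e.symm b.1.1).1.2 = i := by
          rw [← he, Equiv.apply_symm_apply]
          exact b.1.2
        rw [b.2, h2] at h
        exact h
      · rw [he]
      · rw [Equiv.symm_apply_apply]
      · rintro ⟨⟨b, hb'⟩, hb⟩
        apply Subtype.ext
        apply Subtype.ext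
        dsimp only
        rw [Equiv.apply_eq_iff_eq_symm_apply]
        apply Subtype.ext
        have h2 : (e.symm b).1.2 = i := by
          rw [← he, Equiv.apply_symm_apply]
          exact hb'
        exact Prod.ext (Prod.ext rfl hb.symm) h2.symm
      · rintro ⟨w, hw⟩
        apply Subtype.ext
        dsimp only
        rw [Equiv.symm_apply_apply]
    rw [hcard, ← Nat.cast_smul_eq_nsmul ℂ]

end Pool.Agent.K1H99.KQ
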